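import Mathlib
import Pool.Agent.R465.PrimeSum
set_option autoImplicit false

/-!
# Ample numbers coprime to the first `k` primes

The number of recursive divisors is `a(1) = 1`, `a(n) = 1 + ∑_{m ∣ n, m < n} a(m)`; `n` is ample if
`a(n) > n`.  For every `k` there is an ample number which is divisible by none of the first `k`
primes.

Proof.  Choose a finite set `Q` of primes larger than the first `k` primes with `∑_{q ∈ Q} 1 / q > 1`.
The number `a(n)` is at least the number of the sequences `f` of `L` elements of `Q` with product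
`n`, so if `a(n) ≤ n` for all `n` composed of primes in `Q`, then
`(∑ 1 / q) ^ L = ∑_f 1 / ∏ f ≤ ∑_n a(n) / n ≤ #{∏ f} ≤ (L + 1) ^ #Q`, a contradiction for large `L`.
-/

namespace Pool.Agent.Results.MP_bbacab_nt.AmpleCoprime
open Finset

/-- The number of recursive divisors: `a(1) = 1` and `a(n) = 1 + ∑_{m ∣ n, m < n} a(m)`, the sum over
the proper divisors `m` of `n` (for `n = 0` and `n = 1` there are none and the value is `1`). -/
def recDiv (n : ℕ) : ℕ :=
  1 + ∑ m ∈ n.properDivisors.attach, recDiv m.1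
termination_by n
decreasing_by exact (Nat.mem_properDivisors.1 m.2).2

theorem recDiv_eq (n : ℕ) : recDiv n = 1 + ∑ m ∈ n.properDivisors, recDiv m := by
  rw [recDiv, Finset.sum_attach n.properDivisors (fun m => recDiv m)]

theorem recDiv_one : recDiv 1 = 1 := by
  rw [recDiv_eq]; simp

/-- number of sequences of length `L` with entries in `Q` and product `n` -/
def cnt (Q : Finset ℕ) : ℕ → ℕ → ℕ
  | 0, n => if n = 1 then 1 else 0
  | L + 1, n => ∑ q ∈ Q.filter (fun q => q ∣ n), cnt Q L (n / q)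

theorem cnt_le {Q : Finset ℕ} (hQ : ∀ q ∈ Q, q.Prime) (L : ℕ) : ∀ n, 0 < n →
    cnt Q L n ≤ recDiv n := by
  induction L with
  | zero =>
    intro n hn
    unfold cnt
    split_ifs
    · rw [recDiv_eq]; omega
    · omega
  | succ L ih =>
    intro n hn
    unfold cnt
    rw [recDiv_eq]
    have h1 : ∑ q ∈ Q.filter (fun q => q ∣ n), cnt Q L (n / q) ≤
        ∑ q ∈ Q.filter (fun q => q ∣ n), recDiv (n / q) := by
      refine Finset.sum_le_sum fun q hq => ih _ ?_
      rw [Finset.mem_filter] at hq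
      exact Nat.div_pos (Nat.le_of_dvd hn hq.2) (hQ q hq.1).pos
    have h2 : ∑ q ∈ Q.filter (fun q => q ∣ n), recDiv (n / q) =
        ∑ m ∈ (Q.filter (fun q => q ∣ n)).image (fun q => n / q), recDiv m := by
      rw [Finset.sum_image]
      intro q hq q' hq' h
      simp only [Finset.coe_filter, Set.mem_ofPred_eq] at hq hq'
      obtain ⟨c, hc⟩ := hq.2
      obtain ⟨c', hc'⟩ := hq'.2
      have hqp := (hQ q hq.1).pos
      have hqp' := (hQ q' hq'.1).pos
      simp only at h
      have e1 : n / q = c := by rw [hc]; exact Nat.mul_div_cancel_left _ hqp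
      have e2 : n / q' = c' := by
        conv_lhs => rw [hc']
        exact Nat.mul_div_cancel_left _ hqp'
      rw [e1, e2] at h
      subst h
      have hc0 : 0 < c := by
        rcases Nat.eq_zero_or_pos c with h | h
        · subst h; omega
        · exact h
      exact Nat.eq_of_mul_eq_mul_right hc0 (hc.symm.trans hc')
    have h3 : ∑ m ∈ (Q.filter (fun q => q ∣ n)).image (fun q => n / q), recDiv m ≤
        ∑ m ∈ n.properDivisors, recDiv m := by
      refine Finset.sum_le_sum_of_subset ?_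
      intro m hm
      rw [Finset.mem_image] at hm
      obtain ⟨q, hq, rfl⟩ := hm
      rw [Finset.mem_filter] at hq
      rw [Nat.mem_properDivisors]
      exact ⟨Nat.div_dvd_of_dvd hq.2, Nat.div_lt_self hn (hQ q hq.1).one_lt⟩
    omega

/-- the numbers `∏ q ^ e q` with `e q ≤ L` -/
def box (Q : Finset ℕ) (L : ℕ) : Finset ℕ :=
  (Fintype.piFinset (fun _ : Q => Finset.range (L + 1))).image
    (fun e => ∏ q : Q, (q : ℕ) ^ e q)

theorem card_box (Q : Finset ℕ) (L : ℕ) : (box Q L).card ≤ (L + 1) ^ Q.card := by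
  refine Finset.card_image_le.trans ?_
  rw [Fintype.card_piFinset]
  simp

theorem mem_box_mul {Q : Finset ℕ} {L m q : ℕ} (hq : q ∈ Q) (hm : m ∈ box Q L) :
    q * m ∈ box Q (L + 1) := by
  classical
  unfold box at *
  rw [Finset.mem_image] at *
  obtain ⟨e, he, rfl⟩ := hm
  refine ⟨fun r => e r + if r = ⟨q, hq⟩ then 1 else 0, ?_, ?_⟩
  · rw [Fintype.mem_piFinset] at *
    intro r
    have := he r
    rw [Finset.mem_range] at *
    split_ifs <;> omega
  · simp only [pow_add]
    rw [Finset.prod_mul_distrib, mul_comm]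
    congr 1
    rw [Finset.prod_eq_single ⟨q, hq⟩]
    · simp
    · intro b _ hb
      simp [hb]
    · intro h
      exact absurd (Finset.mem_univ _) h

theorem box_pos {Q : Finset ℕ} (hQ : ∀ q ∈ Q, q.Prime) {L n : ℕ} (hn : n ∈ box Q L) : 0 < n := by
  unfold box at hn
  rw [Finset.mem_image] at hn
  obtain ⟨e, _, rfl⟩ := hn
  exact Finset.prod_pos fun q _ => pow_pos (hQ q q.2).pos _

theorem box_prime {Q : Finset ℕ} (hQ : ∀ q ∈ Q, q.Prime) {L n p : ℕ} (hn : n ∈ box Q L)
    (hp : p.Prime) (hpn : p ∣ n) : p ∈ Q := by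
  unfold box at hn
  rw [Finset.mem_image] at hn
  obtain ⟨e, _, rfl⟩ := hn
  obtain ⟨q, _, hq⟩ := (Prime.dvd_finsetProd_iff hp.prime _).1 hpn
  have := (Nat.prime_dvd_prime_iff_eq hp (hQ q q.2)).1 (hp.dvd_of_dvd_pow hq)
  rw [this]
  exact q.2

/-- the weighted sum over the box grows by the factor `∑ 1 / q` -/
theorem sum_le {Q : Finset ℕ} (hQ : ∀ q ∈ Q, q.Prime) (L : ℕ) :
    (∑ q ∈ Q, (1 : ℝ) / q) ^ L ≤ ∑ n ∈ box Q L, (cnt Q L n : ℝ) / n := by
  induction L with
  | zero =>
    have h1 : (1 : ℕ) ∈ box Q 0 := by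
      unfold box
      rw [Finset.mem_image]
      exact ⟨fun _ => 0, by simp, by simp⟩
    have := Finset.single_le_sum (f := fun n => (cnt Q 0 n : ℝ) / n)
      (fun n _ => by positivity) h1
    simpa [cnt] using this
  | succ L ih =>
    rw [pow_succ']
    have h1 : (∑ q ∈ Q, (1 : ℝ) / q) * ∑ n ∈ box Q L, (cnt Q L n : ℝ) / n =
        ∑ q ∈ Q, ∑ m ∈ box Q L, (cnt Q L m : ℝ) / ((q * m : ℕ) : ℝ) := by
      rw [Finset.sum_mul]
      refine Finset.sum_congr rfl fun q _ => ?_
      rw [Finset.mul_sum]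
      refine Finset.sum_congr rfl fun m _ => ?_
      push_cast
      rw [one_div, div_mul_eq_div_div, div_div, mul_comm, div_mul_eq_mul_div]
      field_simp
    have h2 : ∑ n ∈ box Q (L + 1), (cnt Q (L + 1) n : ℝ) / n =
        ∑ q ∈ Q, ∑ n ∈ (box Q (L + 1)).filter (fun n => q ∣ n), (cnt Q L (n / q) : ℝ) / n := by
      have : ∀ n ∈ box Q (L + 1), (cnt Q (L + 1) n : ℝ) / n =
          ∑ q ∈ Q, if q ∣ n then (cnt Q L (n / q) : ℝ) / n else 0 := by
        intro n _
        rw [cnt, Nat.cast_sum, Finset.sum_div, Finset.sum_filter]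
      rw [Finset.sum_congr rfl this, Finset.sum_comm]
      refine Finset.sum_congr rfl fun q _ => ?_
      rw [Finset.sum_filter]
    rw [h2]
    refine (mul_le_mul_of_nonneg_left ih (Finset.sum_nonneg fun q _ => by positivity)).trans ?_
    rw [h1]
    refine Finset.sum_le_sum fun q hq => ?_
    have hq0 := (hQ q hq).pos
    have h3 : ∑ m ∈ box Q L, (cnt Q L m : ℝ) / ((q * m : ℕ) : ℝ) =
        ∑ n ∈ (box Q L).image (fun m => q * m), (cnt Q L (n / q) : ℝ) / n := by
      rw [Finset.sum_image (fun a _ b _ h => Nat.eq_of_mul_eq_mul_left hq0 h)]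
      refine Finset.sum_congr rfl fun m _ => ?_
      rw [Nat.mul_div_cancel_left _ hq0]
    rw [h3]
    refine Finset.sum_le_sum_of_subset_of_nonneg ?_ (fun n _ _ => by positivity)
    intro n hn
    rw [Finset.mem_image] at hn
    obtain ⟨m, hm, rfl⟩ := hn
    rw [Finset.mem_filter]
    exact ⟨mem_box_mul hq hm, Dvd.intro _ rfl⟩

/-- **Main theorem.** For every `k` there is an ample number `n` (`a(n) > n`) coprime to the product
of the first `k` primes. -/
theorem result (k : ℕ) :
    ∃ n : ℕ, 0 < n ∧ n < recDiv n ∧ n.Coprime (∏ i ∈ Finset.range k, Nat.nth Nat.Prime i) := by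
  obtain ⟨X, hX⟩ := Pool.Agent.R465.exists_sum_gt (Nat.nth Nat.Prime k) 1
  set Q := Pool.Agent.R465.prs (Nat.nth Nat.Prime k) X with hQdef
  have hQ : ∀ q ∈ Q, q.Prime := fun q hq => (Pool.Agent.R465.mem_prs.1 hq).2.1
  set c : ℝ := ∑ q ∈ Q, (1 : ℝ) / q with hc
  -- choose `L` with `(L + 1) ^ #Q < c ^ L`
  have hL : ∃ L : ℕ, ((L : ℝ) + 1) ^ Q.card < c ^ L := by
    have h1 := tendsto_pow_const_div_const_pow_of_one_lt Q.card hX
    have h2 := h1.eventually (gt_mem_nhds (show (0 : ℝ) < 1 / c by positivity))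
    obtain ⟨L, hL⟩ := (h2.and (Filter.eventually_ge_atTop 1)).exists
    refine ⟨L - 1, ?_⟩
    obtain ⟨h3, h4⟩ := hL
    have h5 : (((L - 1 : ℕ) : ℝ) + 1) = L := by
      push_cast [Nat.cast_sub h4]; ring
    rw [h5]
    have hc0 : (0 : ℝ) < c := by linarith
    rw [div_lt_div_iff₀ (by positivity) hc0] at h3
    have h6 : c ^ L = c ^ (L - 1) * c := by rw [← pow_succ]; congr 1; omega
    rw [h6] at h3
    nlinarith
  obtain ⟨L, hL⟩ := hL
  by_contra hcon
  push Not at hcon
  have key : ∀ n ∈ box Q L, (cnt Q L n : ℝ) / n ≤ 1 := by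
    intro n hn
    have hn0 := box_pos hQ hn
    rw [div_le_one (by exact_mod_cast hn0)]
    have h1 := cnt_le hQ L n hn0
    by_contra h2
    push Not at h2
    have h3 : n < recDiv n := lt_of_lt_of_le (by exact_mod_cast h2) h1
    refine hcon n hn0 h3 ?_
    rw [← Nat.coprime_iff_gcd_eq_one, Nat.coprime_prod_right_iff]
    intro i hi
    rw [Finset.mem_range] at hi
    have hpi := Nat.prime_nth_prime i
    rw [Nat.coprime_comm, hpi.coprime_iff_not_dvd]
    intro hd
    have h4 := (Pool.Agent.R465.mem_prs.1 (box_prime hQ hn hpi hd)).2.2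
    have h5 : Nat.nth Nat.Prime i < Nat.nth Nat.Prime k :=
      Nat.nth_strictMono Nat.infinite_setOfPred_prime hi
    exact absurd (h5.trans h4) (lt_irrefl _)
  have h1 := sum_le hQ L
  have h2 : ∑ n ∈ box Q L, (cnt Q L n : ℝ) / n ≤ ((L : ℝ) + 1) ^ Q.card := by
    calc ∑ n ∈ box Q L, (cnt Q L n : ℝ) / n ≤ ∑ n ∈ box Q L, (1 : ℝ) := Finset.sum_le_sum key
      _ = (box Q L).card := by simp
      _ ≤ ((L + 1) ^ Q.card : ℕ) := by exact_mod_cast card_box Q L
      _ = _ := by push_cast; ring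
  linarith

end Pool.Agent.Results.MP_bbacab_nt.AmpleCoprime
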